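import Pool.Agent.helper53.MT.CO4

/-!
# Tuples `x` in a box of side `X` and shifts `y` in a box of side `Y`
-/

namespace Pool.Agent.helper39.MT

open Finset CO4

/-- AM-GM for `1 / n`. -/
lemma inv_le71 (X n : ℝ) (hX : 0 < X) (hn : 0 < n) : 1 / n ≤ (X * (1 / n ^ 2) + 1 / X) / 2 := by
  have h : X * (1 / n ^ 2) + 1 / X - 2 * (1 / n) = (X - n) ^ 2 / (X * n ^ 2) := by
    field_simp
    ring
  have h2 : 0 ≤ (X - n) ^ 2 / (X * n ^ 2) := by positivity
  linarith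

/-- The sum over the primes. -/
lemma sum_le71 (D P X Y : ℕ) (hD : 0 < D) (hX : D * (1 + P) ≤ X) (hX0 : 0 < X) :
    ∑ p ∈ {p ∈ pr D P X | p ≤ Y}, ((X : ℝ) / p + 1) * ((Y : ℝ) / p + 1) ≤
      4 * ((X : ℝ) * Y) / D := by
  have hXR : (0 : ℝ) < X := by exact_mod_cast hX0
  have hDR : (0 : ℝ) < D := by exact_mod_cast hD
  have h1 : ∀ p ∈ {p ∈ pr D P X | p ≤ Y}, ((X : ℝ) / p + 1) * ((Y : ℝ) / p + 1) ≤
      2 * Y * (X * (1 / (p : ℝ) ^ 2) + (X * (1 / (p : ℝ) ^ 2) + 1 / X) / 2) := by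
    intro p hp
    obtain ⟨hp1, hpY⟩ := mem_filter.mp hp
    have hpp : p.Prime := (mem_filter.mp hp1).2
    have hp0 : (0 : ℝ) < p := by exact_mod_cast hpp.pos
    have hpY' : (p : ℝ) ≤ Y := by exact_mod_cast hpY
    have h2 : (Y : ℝ) / p + 1 ≤ 2 * (Y / p) := by
      have : (1 : ℝ) ≤ Y / p := by rw [le_div_iff₀ hp0]; linarith
      linarith
    have h3 := inv_le71 X p hXR hp0
    calc ((X : ℝ) / p + 1) * ((Y : ℝ) / p + 1) ≤ ((X : ℝ) / p + 1) * (2 * (Y / p)) :=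
          mul_le_mul_of_nonneg_left h2 (by positivity)
      _ = 2 * Y * (X * (1 / (p : ℝ) ^ 2) + 1 / p) := by
          field_simp
      _ ≤ _ := by
          apply mul_le_mul_of_nonneg_left _ (by positivity)
          linarith
  have h4 : ∑ p ∈ {p ∈ pr D P X | p ≤ Y}, 2 * (Y : ℝ) *
      (X * (1 / (p : ℝ) ^ 2) + (X * (1 / (p : ℝ) ^ 2) + 1 / X) / 2) ≤
      ∑ p ∈ Icc (D + 1) (1 + P * X), 2 * (Y : ℝ) *
      (X * (1 / (p : ℝ) ^ 2) + (X * (1 / (p : ℝ) ^ 2) + 1 / X) / 2) := by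
    apply sum_le_sum_of_subset_of_nonneg
    · intro p hp
      exact (mem_filter.mp (mem_filter.mp hp).1).1
    · intro p _ _
      positivity
  have h5 := sum_inv_sq D (1 + P * X) hD
  have h6 : ∑ p ∈ Icc (D + 1) (1 + P * X), 2 * (Y : ℝ) *
      (X * (1 / (p : ℝ) ^ 2) + (X * (1 / (p : ℝ) ^ 2) + 1 / X) / 2) =
      2 * (Y : ℝ) * ((3 / 2) * X * (∑ p ∈ Icc (D + 1) (1 + P * X), 1 / (p : ℝ) ^ 2) +
        (#(Icc (D + 1) (1 + P * X)) : ℝ) * (1 / X) / 2) := by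
    rw [← mul_sum]
    congr 1
    have : ∀ p : ℕ, ((X : ℝ) * (1 / (p : ℝ) ^ 2) + (X * (1 / (p : ℝ) ^ 2) + 1 / X) / 2) =
        (3 / 2) * X * (1 / (p : ℝ) ^ 2) + (1 / X) / 2 := by intro p; ring
    simp_rw [this]
    rw [sum_add_distrib, ← mul_sum, sum_const, nsmul_eq_mul]
    ring
  have h7 : (#(Icc (D + 1) (1 + P * X)) : ℝ) * (1 / X) ≤ X / D := by
    have h8 : #(Icc (D + 1) (1 + P * X)) ≤ (1 + P) * X := by
      rw [Nat.card_Icc]
      have : 1 + P * X + 1 - (D + 1) ≤ P * X + X := by omega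
      calc _ ≤ P * X + X := this
        _ = (1 + P) * X := by ring
    have h9 : (#(Icc (D + 1) (1 + P * X)) : ℝ) ≤ (1 + P) * X := by exact_mod_cast h8
    calc (#(Icc (D + 1) (1 + P * X)) : ℝ) * (1 / X) ≤ (1 + P) * X * (1 / X) :=
          mul_le_mul_of_nonneg_right h9 (by positivity)
      _ = 1 + P := by field_simp
      _ ≤ X / D := by
          rw [le_div_iff₀ hDR]
          have : ((D * (1 + P) : ℕ) : ℝ) ≤ X := by exact_mod_cast hX
          push_cast at this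
          linarith
  refine (sum_le_sum h1).trans (h4.trans ?_)
  rw [h6]
  have h10 : (3 / 2 : ℝ) * X * (∑ p ∈ Icc (D + 1) (1 + P * X), 1 / (p : ℝ) ^ 2) ≤
      (3 / 2) * X * (1 / D) := mul_le_mul_of_nonneg_left h5 (by positivity)
  have h11 : (3 / 2 : ℝ) * X * (∑ p ∈ Icc (D + 1) (1 + P * X), 1 / (p : ℝ) ^ 2) +
        (#(Icc (D + 1) (1 + P * X)) : ℝ) * (1 / X) / 2 ≤ 2 * (X / D) := by
    have : (3 / 2 : ℝ) * X * (1 / D) = (3 / 2) * (X / D) := by ring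
    linarith
  calc 2 * (Y : ℝ) * ((3 / 2) * X * (∑ p ∈ Icc (D + 1) (1 + P * X), 1 / (p : ℝ) ^ 2) +
        (#(Icc (D + 1) (1 + P * X)) : ℝ) * (1 / X) / 2) ≤ 2 * (Y : ℝ) * (2 * (X / D)) :=
        mul_le_mul_of_nonneg_left h11 (by positivity)
    _ = 4 * ((X : ℝ) * Y) / D := by ring

/-- the pairs of tuples with equal shifts -/
theorem badeq71 {k X Y : ℕ} :
    (#{xy ∈ Fintype.piFinset (fun _ : Fin k => Icc 1 X) ×ˢ
            Fintype.piFinset (fun _ : Fin k => Icc 1 Y) |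
        ¬ ∀ i j, i ≠ j → xy.2 i ≠ xy.2 j} : ℝ) * (Y : ℝ)
      ≤ (k : ℝ) ^ 2 * ((X : ℝ) ^ k * (Y : ℝ) ^ k) := by
  classical
  rcases Nat.eq_zero_or_pos Y with hY | hY
  · subst hY
    simp only [Nat.cast_zero, mul_zero]
    positivity
  have hsub : {xy ∈ Fintype.piFinset (fun _ : Fin k => Icc 1 X) ×ˢ
            Fintype.piFinset (fun _ : Fin k => Icc 1 Y) |
        ¬ ∀ i j, i ≠ j → xy.2 i ≠ xy.2 j}
      ⊆ ((univ : Finset (Fin k × Fin k)).filter (fun t => t.1 ≠ t.2)).biUnion fun t =>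
          (Icc 1 Y).biUnion fun v =>
            (Fintype.piFinset (fun _ : Fin k => Icc 1 X)) ×ˢ
            (Fintype.piFinset (fun l : Fin k =>
            if l = t.1 then {v} else if l = t.2 then {v} else Icc 1 Y)) := by
    intro xy hx
    simp only [Finset.mem_filter, Finset.mem_product, Fintype.mem_piFinset] at hx
    obtain ⟨⟨hx1, hx1'⟩, hx2⟩ := hx
    push Not at hx2
    obtain ⟨i, j, hij, hc⟩ := hx2
    simp only [Finset.mem_biUnion, Finset.mem_filter, Finset.mem_univ, true_and,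
      Finset.mem_product, Fintype.mem_piFinset]
    refine ⟨(i, j), hij, xy.2 i, hx1' i, hx1, fun l' => ?_⟩
    simp only
    split_ifs with h5 h6
    · subst h5; simp
    · subst h6; simp [hc]
    · exact hx1' l'
  have h1 := (Finset.card_le_card hsub).trans (Finset.card_biUnion_le.trans
    (Finset.sum_le_sum fun ij _ => Finset.card_biUnion_le))
  have hYR : (0 : ℝ) < Y := by exact_mod_cast hY
  have h2 : (#{xy ∈ Fintype.piFinset (fun _ : Fin k => Icc 1 X) ×ˢ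
            Fintype.piFinset (fun _ : Fin k => Icc 1 Y) |
        ¬ ∀ i j, i ≠ j → xy.2 i ≠ xy.2 j} : ℝ) * (Y : ℝ) ^ 2
      ≤ ∑ t ∈ (univ : Finset (Fin k × Fin k)).filter (fun t => t.1 ≠ t.2), ∑ v ∈ Icc 1 Y,
          ((#((Fintype.piFinset (fun _ : Fin k => Icc 1 X)) ×ˢ
            (Fintype.piFinset (fun l : Fin k =>
            if l = t.1 then {v} else if l = t.2 then {v} else Icc 1 Y))) * Y ^ 2 : ℕ) : ℝ) := by
    have h3 := Nat.mul_le_mul_right (Y ^ 2) h1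
    simp only [Finset.sum_mul] at h3
    exact_mod_cast h3
  have h4 : ∑ t ∈ (univ : Finset (Fin k × Fin k)).filter (fun t => t.1 ≠ t.2), ∑ v ∈ Icc 1 Y,
          ((#((Fintype.piFinset (fun _ : Fin k => Icc 1 X)) ×ˢ
            (Fintype.piFinset (fun l : Fin k =>
            if l = t.1 then {v} else if l = t.2 then {v} else Icc 1 Y))) * Y ^ 2 : ℕ) : ℝ) ≤
      (k : ℝ) ^ 2 * ((X : ℝ) ^ k * (Y : ℝ) ^ k) * Y := by
    calc _ ≤ ∑ t ∈ (univ : Finset (Fin k × Fin k)).filter (fun t => t.1 ≠ t.2),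
          ∑ v ∈ Icc 1 Y, ((X : ℝ) ^ k * (Y : ℝ) ^ k) := by
          refine sum_le_sum fun t ht => sum_le_sum fun v _ => ?_
          rw [Finset.card_product]
          have e2 := card_pi_two (k := k) Y (mem_filter.mp ht).2 {v} {v}
          rw [Finset.card_singleton, one_mul, one_mul] at e2
          rw [mul_assoc, e2]
          simp
      _ = #((univ : Finset (Fin k × Fin k)).filter (fun t => t.1 ≠ t.2)) *
            ((Y : ℝ) * ((X : ℝ) ^ k * (Y : ℝ) ^ k)) := by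
          simp only [sum_const, Nat.card_Icc, nsmul_eq_mul, Nat.add_sub_cancel]
      _ ≤ (k : ℝ) ^ 2 * ((Y : ℝ) * ((X : ℝ) ^ k * (Y : ℝ) ^ k)) := by
          refine mul_le_mul_of_nonneg_right ?_ (by positivity)
          have : #((univ : Finset (Fin k × Fin k)).filter (fun t => t.1 ≠ t.2)) ≤ k ^ 2 := by
            refine (Finset.card_filter_le _ _).trans (le_of_eq ?_)
            rw [Finset.card_univ, Fintype.card_prod, Fintype.card_fin]; ring
          exact_mod_cast this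
      _ = (k : ℝ) ^ 2 * ((X : ℝ) ^ k * (Y : ℝ) ^ k) * Y := by ring
  have h5 := h2.trans h4
  have h6 : (#{xy ∈ Fintype.piFinset (fun _ : Fin k => Icc 1 X) ×ˢ
            Fintype.piFinset (fun _ : Fin k => Icc 1 Y) |
        ¬ ∀ i j, i ≠ j → xy.2 i ≠ xy.2 j} : ℝ) * (Y : ℝ) * Y ≤
      (k : ℝ) ^ 2 * ((X : ℝ) ^ k * (Y : ℝ) ^ k) * Y := by
    calc _ = (#{xy ∈ Fintype.piFinset (fun _ : Fin k => Icc 1 X) ×ˢ
            Fintype.piFinset (fun _ : Fin k => Icc 1 Y) |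
        ¬ ∀ i j, i ≠ j → xy.2 i ≠ xy.2 j} : ℝ) * (Y : ℝ) ^ 2 := by ring
      _ ≤ _ := h5
  exact le_of_mul_le_mul_right h6 hYR

/-- the pairs of tuples with distinct shifts and a common factor of `1 + P x_l` and `y_i - y_j` -/
theorem bad371 {k D P X Y : ℕ} (hX : 0 < X) (hY : 0 < Y)
    (hP : ∀ p : ℕ, p.Prime → p ≤ D → p ∣ P) :
    (#{xy ∈ Fintype.piFinset (fun _ : Fin k => Icc 1 X) ×ˢ
            Fintype.piFinset (fun _ : Fin k => Icc 1 Y) |
        (∀ i j, i ≠ j → xy.2 i ≠ xy.2 j) ∧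
        ¬ ∀ i j l, i ≠ j → IsCoprime ((1 + P * xy.1 l : ℕ) : ℤ) ((xy.2 i : ℤ) - xy.2 j)} : ℝ)
        * ((X : ℝ) * Y)
      ≤ (k : ℝ) ^ 3 * (∑ p ∈ {p ∈ pr D P X | p ≤ Y}, ((X : ℝ) / p + 1) * ((Y : ℝ) / p + 1)) *
        ((X : ℝ) ^ k * (Y : ℝ) ^ k) := by
  classical
  set Q : Finset ℕ := {p ∈ pr D P X | p ≤ Y} with hQ
  set BQ : ℝ := ∑ p ∈ Q, ((X : ℝ) / p + 1) * ((Y : ℝ) / p + 1) with hBQ
  have hsub : {xy ∈ Fintype.piFinset (fun _ : Fin k => Icc 1 X) ×ˢ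
            Fintype.piFinset (fun _ : Fin k => Icc 1 Y) |
        (∀ i j, i ≠ j → xy.2 i ≠ xy.2 j) ∧
        ¬ ∀ i j l, i ≠ j → IsCoprime ((1 + P * xy.1 l : ℕ) : ℤ) ((xy.2 i : ℤ) - xy.2 j)}
      ⊆ ((univ : Finset (Fin k × Fin k × Fin k)).filter (fun t => t.1 ≠ t.2.1)).biUnion fun t =>
          Q.biUnion fun p => (Icc 1 Y).biUnion fun v =>
            (Fintype.piFinset (fun l : Fin k => if l = t.2.2 then SS P X p else Icc 1 X)) ×ˢ
            (Fintype.piFinset (fun l : Fin k =>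
            if l = t.1 then {v} else if l = t.2.1 then {n ∈ Icc 1 Y | n ≡ v [MOD p]}
              else Icc 1 Y)) := by
    intro xy hx
    simp only [Finset.mem_filter, Finset.mem_product, Fintype.mem_piFinset] at hx
    obtain ⟨⟨hx1, hx1'⟩, hne, hx2⟩ := hx
    push Not at hx2
    obtain ⟨i, j, l, hij, hc⟩ := hx2
    have hc' : ¬ Nat.Coprime (1 + P * xy.1 l) (((xy.2 i : ℤ) - xy.2 j).natAbs) := by
      intro h
      apply hc
      rw [Int.isCoprime_iff_gcd_eq_one, Int.gcd, Int.natAbs_natCast]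
      exact h
    obtain ⟨p, hp, h1, h2⟩ := Nat.Prime.not_coprime_iff_dvd.1 hc'
    have h3 : (p : ℤ) ∣ (xy.2 i : ℤ) - xy.2 j := Int.natCast_dvd.2 h2
    have h4 : xy.2 j ≡ xy.2 i [MOD p] := Nat.modEq_iff_dvd.2 h3
    have hpY : p ≤ Y := by
      have hne' := hne i j hij
      have h5 : 0 < ((xy.2 i : ℤ) - xy.2 j).natAbs := by omega
      have h6 := Nat.le_of_dvd h5 h2
      have h7 := (mem_Icc.mp (hx1' i))
      have h8 := (mem_Icc.mp (hx1' j))
      omega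
    simp only [Finset.mem_biUnion, Finset.mem_filter, Finset.mem_univ, true_and,
      Finset.mem_product, Fintype.mem_piFinset]
    refine ⟨(i, j, l), hij, p, mem_filter.mpr
      ⟨mem_pr hP hp h1 (Finset.mem_Icc.1 (hx1 l)).2, hpY⟩, xy.2 i, hx1' i,
      fun l' => ?_, fun l' => ?_⟩
    · simp only
      split_ifs with h5
      · subst h5; exact Finset.mem_filter.2 ⟨hx1 _, h1⟩
      · exact hx1 l'
    · simp only
      split_ifs with h5 h6
      · subst h5; simp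
      · subst h6; exact Finset.mem_filter.2 ⟨hx1' _, h4⟩
      · exact hx1' l'
  have h1 := (Finset.card_le_card hsub).trans (Finset.card_biUnion_le.trans
    (Finset.sum_le_sum fun ij _ => Finset.card_biUnion_le.trans
    (Finset.sum_le_sum fun p _ => Finset.card_biUnion_le)))
  have h2 : (#{xy ∈ Fintype.piFinset (fun _ : Fin k => Icc 1 X) ×ˢ
            Fintype.piFinset (fun _ : Fin k => Icc 1 Y) |
        (∀ i j, i ≠ j → xy.2 i ≠ xy.2 j) ∧
        ¬ ∀ i j l, i ≠ j → IsCoprime ((1 + P * xy.1 l : ℕ) : ℤ) ((xy.2 i : ℤ) - xy.2 j)} : ℝ)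
        * ((X : ℝ) * Y) * Y
      ≤ ∑ t ∈ (univ : Finset (Fin k × Fin k × Fin k)).filter (fun t => t.1 ≠ t.2.1),
          ∑ p ∈ Q, ∑ v ∈ Icc 1 Y,
          ((#((Fintype.piFinset (fun l : Fin k => if l = t.2.2 then SS P X p else Icc 1 X)) ×ˢ
            (Fintype.piFinset (fun l : Fin k =>
            if l = t.1 then {v} else if l = t.2.1 then {n ∈ Icc 1 Y | n ≡ v [MOD p]}
              else Icc 1 Y))) * (X * Y) * Y : ℕ) : ℝ) := by
    have h3 := Nat.mul_le_mul_right Y (Nat.mul_le_mul_right (X * Y) h1)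
    simp only [Finset.sum_mul] at h3
    exact_mod_cast h3
  have hX' : (0 : ℝ) < X := by exact_mod_cast hX
  have hY' : (0 : ℝ) < Y := by exact_mod_cast hY
  have h4 : ∀ t : Fin k × Fin k × Fin k, t.1 ≠ t.2.1 → ∀ p ∈ Q, ∑ v ∈ Icc 1 Y,
          ((#((Fintype.piFinset (fun l : Fin k => if l = t.2.2 then SS P X p else Icc 1 X)) ×ˢ
            (Fintype.piFinset (fun l : Fin k =>
            if l = t.1 then {v} else if l = t.2.1 then {n ∈ Icc 1 Y | n ≡ v [MOD p]}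
              else Icc 1 Y))) * (X * Y) * Y : ℕ) : ℝ)
        ≤ ((X : ℝ) / p + 1) * ((Y : ℝ) / p + 1) * ((X : ℝ) ^ k * (Y : ℝ) ^ k) * Y := by
    intro t ht p hpQ
    have hp := (mem_filter.mp hpQ).1
    have hp' : p.Prime := (Finset.mem_filter.1 hp).2
    calc ∑ v ∈ Icc 1 Y,
          ((#((Fintype.piFinset (fun l : Fin k => if l = t.2.2 then SS P X p else Icc 1 X)) ×ˢ
            (Fintype.piFinset (fun l : Fin k =>
            if l = t.1 then {v} else if l = t.2.1 then {n ∈ Icc 1 Y | n ≡ v [MOD p]}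
              else Icc 1 Y))) * (X * Y) * Y : ℕ) : ℝ)
        ≤ ∑ v ∈ Icc 1 Y, ((X : ℝ) / p + 1) * ((Y : ℝ) / p + 1) * ((X : ℝ) ^ k * (Y : ℝ) ^ k) := by
          refine Finset.sum_le_sum fun v _ => ?_
          rw [Finset.card_product]
          have e1 := card_pi_one (k := k) X t.2.2 (SS P X p)
          have e2 := card_pi_two (k := k) Y ht {v} ({n ∈ Icc 1 Y | n ≡ v [MOD p]})
          rw [Finset.card_singleton, one_mul] at e2
          have e3 : ∀ a b : ℕ, a * b * (X * Y) * Y = (a * X) * (b * Y ^ 2) := by intro a b; ring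
          rw [e3, e1, e2]
          push_cast
          have a1 := card_SS_le hp
          have a2 := card_modEq Y p v hp'.pos
          have h0 : (0 : ℝ) ≤ #(SS P X p) := by positivity
          have h0' : (0 : ℝ) ≤ #{n ∈ Icc 1 Y | n ≡ v [MOD p]} := by positivity
          have a3 := mul_le_mul a1 a2 h0' (h0.trans a1)
          have a4 : (0 : ℝ) ≤ (X : ℝ) ^ k * (Y : ℝ) ^ k := by positivity
          have a5 := mul_le_mul_of_nonneg_right a3 a4
          calc (#(SS P X p) : ℝ) * (X : ℝ) ^ k * (#{n ∈ Icc 1 Y | n ≡ v [MOD p]} * (Y : ℝ) ^ k)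
              = (#(SS P X p) : ℝ) * #{n ∈ Icc 1 Y | n ≡ v [MOD p]} * ((X : ℝ) ^ k * (Y : ℝ) ^ k) := by
                ring
            _ ≤ ((X : ℝ) / p + 1) * ((Y : ℝ) / p + 1) * ((X : ℝ) ^ k * (Y : ℝ) ^ k) := a5
      _ = ((X : ℝ) / p + 1) * ((Y : ℝ) / p + 1) * ((X : ℝ) ^ k * (Y : ℝ) ^ k) * Y := by
          rw [Finset.sum_const, Nat.card_Icc, nsmul_eq_mul]
          simp only [Nat.add_sub_cancel]
          ring
  have hB0 : 0 ≤ BQ := by
    rw [hBQ]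
    exact Finset.sum_nonneg fun _ _ => by positivity
  have h5 : (#{xy ∈ Fintype.piFinset (fun _ : Fin k => Icc 1 X) ×ˢ
            Fintype.piFinset (fun _ : Fin k => Icc 1 Y) |
        (∀ i j, i ≠ j → xy.2 i ≠ xy.2 j) ∧
        ¬ ∀ i j l, i ≠ j → IsCoprime ((1 + P * xy.1 l : ℕ) : ℤ) ((xy.2 i : ℤ) - xy.2 j)} : ℝ)
        * ((X : ℝ) * Y) * Y
      ≤ (k : ℝ) ^ 3 * BQ * ((X : ℝ) ^ k * (Y : ℝ) ^ k) * Y := by
    refine h2.trans ?_
    calc _ ≤ ∑ t ∈ (univ : Finset (Fin k × Fin k × Fin k)).filter (fun t => t.1 ≠ t.2.1),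
              BQ * ((X : ℝ) ^ k * (Y : ℝ) ^ k) * Y := by
          refine Finset.sum_le_sum fun t ht => ?_
          refine (Finset.sum_le_sum fun p hp => h4 t (Finset.mem_filter.1 ht).2 p hp).trans ?_
          rw [← Finset.sum_mul, ← Finset.sum_mul]
      _ = #((univ : Finset (Fin k × Fin k × Fin k)).filter (fun t => t.1 ≠ t.2.1))
            * (BQ * ((X : ℝ) ^ k * (Y : ℝ) ^ k) * Y) := by
          rw [Finset.sum_const, nsmul_eq_mul]
      _ ≤ (k : ℝ) ^ 3 * (BQ * ((X : ℝ) ^ k * (Y : ℝ) ^ k) * Y) := by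
          refine mul_le_mul_of_nonneg_right ?_ (by positivity)
          have : #((univ : Finset (Fin k × Fin k × Fin k)).filter (fun t => t.1 ≠ t.2.1)) ≤ k ^ 3 := by
            refine (Finset.card_filter_le _ _).trans (le_of_eq ?_)
            rw [Finset.card_univ, Fintype.card_prod, Fintype.card_prod, Fintype.card_fin]; ring
          exact_mod_cast this
      _ = (k : ℝ) ^ 3 * BQ * ((X : ℝ) ^ k * (Y : ℝ) ^ k) * Y := by ring
  exact le_of_mul_le_mul_right h5 hY'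

/-- Most pairs of tuples are good, in boxes of every shape. -/
theorem coprime_tuples_box (k : ℕ) : ∃ D : ℕ, ∀ P : ℕ, 0 < P →
    (∀ p : ℕ, p.Prime → p ≤ D → p ∣ P) → ∃ X₀ : ℕ, ∀ X Y : ℕ, X₀ ≤ X → X₀ ≤ Y →
      ((X : ℝ) ^ k * (Y : ℝ) ^ k) / 4 ≤
        #{xy ∈ Fintype.piFinset (fun _ : Fin k => Icc 1 X) ×ˢ
            Fintype.piFinset (fun _ : Fin k => Icc 1 Y) |
          (∀ i j, i ≠ j → Nat.Coprime (1 + P * xy.1 i) (1 + P * xy.1 j)) ∧
          ∀ i j l, i ≠ j → IsCoprime ((1 + P * xy.1 l : ℕ) : ℤ) ((xy.2 i : ℤ) - xy.2 j)} := by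
  classical
  obtain ⟨D, hD, h⟩ := BB_le (k ^ 2)
  set E : ℕ := max D (32 * k ^ 3 + 1) with hE
  have hED : D ≤ E := le_max_left _ _
  have hE2 : 32 * k ^ 3 + 1 ≤ E := le_max_right _ _
  refine ⟨E, fun P _ hP => ?_⟩
  obtain ⟨X₀, hX₀, h2⟩ := h P
  refine ⟨max X₀ (max (E * (1 + P)) (8 * k ^ 2 + 1)), fun X Y hX hY => ?_⟩
  have hX1 : X₀ ≤ X := (le_max_left _ _).trans hX
  have hX2 : E * (1 + P) ≤ X := (le_max_left _ _).trans ((le_max_right _ _).trans hX)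
  have hY2 : 8 * k ^ 2 + 1 ≤ Y := (le_max_right _ _).trans ((le_max_right _ _).trans hY)
  have hXpos : 0 < X := by omega
  have hYpos : 0 < Y := by omega
  have hX0 : (0 : ℝ) < X := by exact_mod_cast hXpos
  have hY0 : (0 : ℝ) < Y := by exact_mod_cast hYpos
  have hEpos : 0 < E := by omega
  have hER : (0 : ℝ) < E := by exact_mod_cast hEpos
  have h3 := h2 X hX1
  have hb1 := bad1 (k := k) (X := X) (fun p hp hle => hP p hp (hle.trans hED))
  have hb2 := badeq71 (k := k) (X := X) (Y := Y)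
  have hb3 := bad371 (k := k) hXpos hYpos hP
  have hs := sum_le71 E P X Y hEpos hX2 hXpos
  set T := Fintype.piFinset (fun _ : Fin k => Icc 1 X) with hT
  set U := Fintype.piFinset (fun _ : Fin k => Icc 1 Y) with hU
  have h6 : #T = X ^ k := by simp [hT]
  have h6' : #U = Y ^ k := by simp [hU]
  set Gd := {xy ∈ T ×ˢ U | (∀ i j, i ≠ j → Nat.Coprime (1 + P * xy.1 i) (1 + P * xy.1 j)) ∧
          ∀ i j l, i ≠ j → IsCoprime ((1 + P * xy.1 l : ℕ) : ℤ) ((xy.2 i : ℤ) - xy.2 j)} with hGd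
  set B1 := {x ∈ T | ¬ ∀ i j, i ≠ j → Nat.Coprime (1 + P * x i) (1 + P * x j)} with hB1
  set B2 := {xy ∈ T ×ˢ U | ¬ ∀ i j, i ≠ j → xy.2 i ≠ xy.2 j} with hB2
  set B3 := {xy ∈ T ×ˢ U | (∀ i j, i ≠ j → xy.2 i ≠ xy.2 j) ∧ ¬ ∀ i j l, i ≠ j →
    IsCoprime ((1 + P * xy.1 l : ℕ) : ℤ) ((xy.2 i : ℤ) - xy.2 j)} with hB3
  have hcov : T ×ˢ U ⊆ Gd ∪ (B1 ×ˢ U ∪ (B2 ∪ B3)) := by
    intro xy hxy
    have hxy' := Finset.mem_product.1 hxy
    by_cases c1 : ∀ i j, i ≠ j → Nat.Coprime (1 + P * xy.1 i) (1 + P * xy.1 j)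
    · by_cases c2 : ∀ i j l, i ≠ j → IsCoprime ((1 + P * xy.1 l : ℕ) : ℤ) ((xy.2 i : ℤ) - xy.2 j)
      · exact Finset.mem_union_left _ (Finset.mem_filter.2 ⟨hxy, c1, c2⟩)
      · refine Finset.mem_union_right _ (Finset.mem_union_right _ ?_)
        by_cases c3 : ∀ i j, i ≠ j → xy.2 i ≠ xy.2 j
        · exact Finset.mem_union_right _ (Finset.mem_filter.2 ⟨hxy, c3, c2⟩)
        · exact Finset.mem_union_left _ (Finset.mem_filter.2 ⟨hxy, c3⟩)
    · exact Finset.mem_union_right _ (Finset.mem_union_left _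
        (Finset.mem_product.2 ⟨Finset.mem_filter.2 ⟨hxy'.1, c1⟩, hxy'.2⟩))
  have h7 := (Finset.card_le_card hcov).trans ((Finset.card_union_le _ _).trans
    (Nat.add_le_add_left ((Finset.card_union_le _ _).trans
      (Nat.add_le_add_left (Finset.card_union_le _ _) _)) _))
  rw [Finset.card_product, Finset.card_product, h6, h6'] at h7
  have h8 : (X : ℝ) ^ k * (Y : ℝ) ^ k ≤ #Gd + (#B1 * (Y : ℝ) ^ k + (#B2 + #B3)) := by
    exact_mod_cast h7
  have hXk : (0 : ℝ) < (X : ℝ) ^ k := by positivity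
  have hYk : (0 : ℝ) < (Y : ℝ) ^ k := by positivity
  have g1 : #B1 * (Y : ℝ) ^ k ≤ ((X : ℝ) ^ k * (Y : ℝ) ^ k) / 2 := by
    have g11 : (#B1 : ℝ) * (X : ℝ) ^ 2 ≤ (X : ℝ) ^ k / 2 * (X : ℝ) ^ 2 := by
      refine hb1.trans ?_
      push_cast at h3
      have := mul_le_mul_of_nonneg_right h3 hXk.le
      calc (k : ℝ) ^ 2 * BB D P X * (X : ℝ) ^ k ≤ (X : ℝ) ^ 2 / 2 * (X : ℝ) ^ k := this
        _ = (X : ℝ) ^ k / 2 * (X : ℝ) ^ 2 := by ring
    have g12 : (#B1 : ℝ) ≤ (X : ℝ) ^ k / 2 := le_of_mul_le_mul_right g11 (by positivity)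
    have := mul_le_mul_of_nonneg_right g12 hYk.le
    linarith
  have g2 : (#B2 : ℝ) ≤ ((X : ℝ) ^ k * (Y : ℝ) ^ k) / 8 := by
    have g21 : (k : ℝ) ^ 2 ≤ Y / 8 := by
      have : ((8 * k ^ 2 + 1 : ℕ) : ℝ) ≤ Y := by exact_mod_cast hY2
      push_cast at this
      linarith
    have g22 : (#B2 : ℝ) * Y ≤ ((X : ℝ) ^ k * (Y : ℝ) ^ k) / 8 * Y := by
      refine hb2.trans ?_
      have := mul_le_mul_of_nonneg_right g21 (mul_pos hXk hYk).le
      calc _ ≤ Y / 8 * ((X : ℝ) ^ k * (Y : ℝ) ^ k) := this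
        _ = _ := by ring
    exact le_of_mul_le_mul_right g22 hY0
  have g3 : (#B3 : ℝ) ≤ ((X : ℝ) ^ k * (Y : ℝ) ^ k) / 8 := by
    have g31 : (k : ℝ) ^ 3 * (4 * ((X : ℝ) * Y) / E) ≤ (X * Y) / 8 := by
      have g32 : 32 * (k : ℝ) ^ 3 ≤ E := by
        have : ((32 * k ^ 3 + 1 : ℕ) : ℝ) ≤ E := by exact_mod_cast hE2
        push_cast at this
        linarith
      have g33 : (k : ℝ) ^ 3 * (4 * ((X : ℝ) * Y) / E) = (32 * (k : ℝ) ^ 3 / E) * ((X * Y) / 8) := by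
        ring
      rw [g33]
      have g34 : 32 * (k : ℝ) ^ 3 / E ≤ 1 := by rw [div_le_one hER]; exact g32
      have := mul_le_mul_of_nonneg_right g34 (by positivity : (0 : ℝ) ≤ (X * Y) / 8)
      linarith
    have g35 : (#B3 : ℝ) * ((X : ℝ) * Y) ≤ ((X : ℝ) ^ k * (Y : ℝ) ^ k) / 8 * ((X : ℝ) * Y) := by
      refine hb3.trans ?_
      have g36 := mul_le_mul_of_nonneg_left hs (by positivity : (0 : ℝ) ≤ (k : ℝ) ^ 3)
      have g37 := mul_le_mul_of_nonneg_right (g36.trans g31) (mul_pos hXk hYk).le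
      calc _ ≤ (X * Y) / 8 * ((X : ℝ) ^ k * (Y : ℝ) ^ k) := g37
        _ = _ := by ring
    exact le_of_mul_le_mul_right g35 (by positivity)
  linarith

end Pool.Agent.helper39.MT
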