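import Pool.Agent.helper71.MT.Box1
import Pool.Agent.helper71.MT.R2
import Pool.Agent.helper39.MT.Main

/-!
# A positive proportion of all triples, in boxes of every shape
-/

namespace Pool.Agent.helper39.MT

open Finset Real

open Classical in
/-- A positive proportion of all triples, boxes of every shape. -/
theorem triples_box_of
    (two_primes_general : ∃ k : ℕ, 2 ≤ k ∧ ∀ (u : Fin k → ℕ) (e : Fin k → ℤ), (∀ i, 0 < u i) →
      Function.Injective e →
      (∀ p : ℕ, p.Prime → ∃ n : ℤ, ∀ i, ((p ^ (u i).factorization p : ℕ) : ℤ) ∣ n + e i ∧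
        ¬ ((p ^ ((u i).factorization p + 1) : ℕ) : ℤ) ∣ n + e i) →
      ∃ i j, i ≠ j ∧ InfSol (u i) (u j) (e i - e j))
    (coprime_tuples_box : ∀ k : ℕ, ∃ D : ℕ, ∀ P : ℕ, 0 < P →
      (∀ p : ℕ, p.Prime → p ≤ D → p ∣ P) → ∃ X₀ : ℕ, ∀ X Y : ℕ, X₀ ≤ X → X₀ ≤ Y →
      ((X : ℝ) ^ k * (Y : ℝ) ^ k) / 4 ≤
        #{xy ∈ Fintype.piFinset (fun _ : Fin k => Icc 1 X) ×ˢ
            Fintype.piFinset (fun _ : Fin k => Icc 1 Y) |
          (∀ i j, i ≠ j → Nat.Coprime (1 + P * xy.1 i) (1 + P * xy.1 j)) ∧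
          ∀ i j l, i ≠ j → IsCoprime ((1 + P * xy.1 l : ℕ) : ℤ) ((xy.2 i : ℤ) - xy.2 j)}) :
    ∃ δ : ℝ, 0 < δ ∧ ∃ N₀ : ℕ, ∀ M N : ℕ, N₀ ≤ M → N₀ ≤ N →
      δ * ((M : ℝ) ^ 2 * N) ≤ #{t ∈ Icc 1 M ×ˢ Icc 1 M ×ˢ Icc 1 N | Nat.Coprime t.1 t.2.1 ∧
        Nat.Coprime t.1 t.2.2 ∧ Nat.Coprime t.2.1 t.2.2 ∧
        ¬ (Odd t.1 ∧ Odd t.2.1 ∧ Odd t.2.2) ∧ InfSol t.1 t.2.1 t.2.2} := by
  obtain ⟨k, hk, H⟩ := two_primes_general
  obtain ⟨D, hD⟩ := coprime_tuples_box k
  set P : ℕ := primorial (max D k) with hPdef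
  have hPpos : 0 < P := primorial_pos _
  have hPdvd : ∀ p : ℕ, p.Prime → p ≤ max D k → p ∣ P := by
    intro p hp hle
    exact (hp.dvd_primorial_iff).mpr hle
  obtain ⟨X₀, hX₀⟩ := hD P hPpos (fun p hp hle => hPdvd p hp (le_trans hle (le_max_left _ _)))
  have h2P : 2 ∣ P := hPdvd 2 Nat.prime_two (le_trans hk (le_max_right _ _))
  -- the good set for `X`
  have main : ∀ X Y : ℕ, X₀ ≤ X → X₀ ≤ Y → 1 ≤ X → 1 ≤ Y → ∀ M N : ℕ, 1 + P * X ≤ M → P * Y ≤ N →
      ((X : ℝ) ^ 2 * Y) / (4 * (k : ℝ) ^ 2) ≤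
        #{t ∈ Icc 1 M ×ˢ Icc 1 M ×ˢ Icc 1 N | Nat.Coprime t.1 t.2.1 ∧
        Nat.Coprime t.1 t.2.2 ∧ Nat.Coprime t.2.1 t.2.2 ∧
        ¬ (Odd t.1 ∧ Odd t.2.1 ∧ Odd t.2.2) ∧ InfSol t.1 t.2.1 t.2.2} := by
    intro X Y hX hY hX1 hY1 M N hM hN
    set T := {t ∈ Icc 1 M ×ˢ Icc 1 M ×ˢ Icc 1 N | Nat.Coprime t.1 t.2.1 ∧
        Nat.Coprime t.1 t.2.2 ∧ Nat.Coprime t.2.1 t.2.2 ∧
        ¬ (Odd t.1 ∧ Odd t.2.1 ∧ Odd t.2.2) ∧ InfSol t.1 t.2.1 t.2.2} with hT
    set B := Fintype.piFinset (fun _ : Fin k => Icc 1 X) with hB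
    set C := Fintype.piFinset (fun _ : Fin k => Icc 1 Y) with hC
    set G := {xy ∈ B ×ˢ C |
          (∀ i j, i ≠ j → Nat.Coprime (1 + P * xy.1 i) (1 + P * xy.1 j)) ∧
          ∀ i j l, i ≠ j → IsCoprime ((1 + P * xy.1 l : ℕ) : ℤ) ((xy.2 i : ℤ) - xy.2 j)} with hG
    have hGcard : ((X : ℝ) ^ k * (Y : ℝ) ^ k) / 4 ≤ #G := hX₀ X Y hX hY
    -- the sets for each pair
    set S : Fin k × Fin k → Finset ((Fin k → ℕ) × (Fin k → ℕ)) := fun ij =>
      {xy ∈ G | ij.1 ≠ ij.2 ∧ xy.2 ij.2 < xy.2 ij.1 ∧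
        InfSol (1 + P * xy.1 ij.1) (1 + P * xy.1 ij.2) (P * ((xy.2 ij.1 : ℤ) - xy.2 ij.2))} with hS
    have hcover : G ⊆ univ.biUnion S := by
      rintro ⟨x, y⟩ hxy
      obtain ⟨hxyB, hc1, hc2⟩ := mem_filter.mp hxy
      simp only at hc1 hc2
      have hyne : ∀ i j : Fin k, i ≠ j → y i ≠ y j := by
        intro i j hij he
        have h1 := hc2 i j i hij
        rw [he, sub_self] at h1
        have h2 : IsUnit ((1 + P * x i : ℕ) : ℤ) := isCoprime_zero_right.mp h1
        rw [Int.isUnit_iff] at h2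
        obtain ⟨hx, -⟩ := mem_product.mp hxyB
        have hxi := (mem_Icc.mp (Fintype.mem_piFinset.mp hx i)).1
        have h3 : 1 ≤ P * x i := Nat.one_le_iff_ne_zero.mpr (Nat.mul_ne_zero hPpos.ne' (by
          simp only at hxi; omega))
        rcases h2 with h2 | h2
        · have : 1 + P * x i = 1 := by exact_mod_cast h2
          omega
        · have : (0 : ℤ) ≤ ((1 + P * x i : ℕ) : ℤ) := Int.natCast_nonneg _
          omega
      obtain ⟨i, j, hij, hsol⟩ := H (fun i => 1 + P * x i) (fun i => (P : ℤ) * y i)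
        (fun i => by positivity)
        (by
          intro i j he
          by_contra hij
          apply hyne i j hij
          have h1 : (P : ℤ) ≠ 0 := by exact_mod_cast hPpos.ne'
          have h2 : (y i : ℤ) = y j := mul_left_cancel₀ h1 he
          exact_mod_cast h2)
        (fun p hp => local71 P (fun p hp hle => hPdvd p hp (le_trans hle (le_max_right _ _)))
          x y hc1 hc2 p hp)
      rw [mem_biUnion]
      rcases lt_or_gt_of_ne (hyne i j hij) with hlt | hlt
      · refine ⟨(j, i), mem_univ _, mem_filter.mpr ⟨hxy, hij.symm, hlt, ?_⟩⟩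
        have := hsol.swap71
        have e1 : -((P : ℤ) * y i - (P : ℤ) * y j) = P * ((y j : ℤ) - y i) := by ring
        rw [e1] at this
        exact this
      · refine ⟨(i, j), mem_univ _, mem_filter.mpr ⟨hxy, hij, hlt, ?_⟩⟩
        have e1 : ((P : ℤ) * y i - (P : ℤ) * y j) = P * ((y i : ℤ) - y j) := by ring
        rw [e1] at hsol
        exact hsol
    -- the count for each pair
    have hone : ∀ ij : Fin k × Fin k, #(S ij) * (X ^ 2 * Y) ≤ #T * (X ^ k * Y ^ k) := by
      rintro ⟨i, j⟩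
      set φ : ((Fin k → ℕ) × (Fin k → ℕ)) × (ℕ × ℕ × ℕ) →
          (ℕ × ℕ × ℕ) × ((Fin k → ℕ) × (Fin k → ℕ)) := fun w =>
        ((1 + P * w.1.1 i, 1 + P * w.1.1 j, P * (w.1.2 i - w.1.2 j)),
          (Function.update (Function.update w.1.1 i w.2.1) j w.2.2.1,
            Function.update w.1.2 i w.2.2.2)) with hφ
      have hmaps : ∀ w ∈ S (i, j) ×ˢ (Icc 1 X ×ˢ Icc 1 X ×ˢ Icc 1 Y), φ w ∈ T ×ˢ (B ×ˢ C) := by
        rintro ⟨⟨x, y⟩, s, r, q⟩ hw
        simp only [mem_product] at hw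
        obtain ⟨hxyS, hs, hr, hq⟩ := hw
        obtain ⟨hxyG, hij, hlt, hsol⟩ := mem_filter.mp hxyS
        obtain ⟨hxyB, hc1, hc2⟩ := mem_filter.mp hxyG
        obtain ⟨hx, hy⟩ := mem_product.mp hxyB
        simp only at hij hlt hsol hc1 hc2 hx hy
        have hx' := fun l => mem_Icc.mp (Fintype.mem_piFinset.mp hx l)
        have hy' := fun l => mem_Icc.mp (Fintype.mem_piFinset.mp hy l)

        simp only [hφ, mem_product]
        have hcast : ((P * (y i - y j) : ℕ) : ℤ) = P * ((y i : ℤ) - y j) := by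
          push_cast [Nat.cast_sub hlt.le]; ring
        have hPcop : ∀ l, Nat.Coprime (1 + P * x l) P := by
          intro l
          rw [Nat.coprime_comm]
          exact (Nat.coprime_add_mul_left_right P 1 (x l)).mpr (Nat.coprime_one_right P)
        have hcopy : ∀ l, Nat.Coprime (1 + P * x l) (y i - y j) := by
          intro l
          have h1 := hc2 i j l hij
          have h2 : ((y i - y j : ℕ) : ℤ) = (y i : ℤ) - y j := by
            push_cast [Nat.cast_sub hlt.le]; ring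
          rw [← h2] at h1
          exact Nat.isCoprime_iff_coprime.mp h1
        refine ⟨mem_filter.mpr ⟨?_, hc1 i j hij, ?_, ?_, ?_, ?_⟩, ?_, ?_⟩
        · simp only [mem_product, mem_Icc]
          have h1 : P * x i ≤ P * X := Nat.mul_le_mul_left _ (hx' i).2
          have h2 : P * x j ≤ P * X := Nat.mul_le_mul_left _ (hx' j).2
          have h3 : P * (y i - y j) ≤ P * Y :=
            Nat.mul_le_mul_left _ (le_trans (Nat.sub_le _ _) (hy' i).2)
          have h4 : 1 ≤ P * (y i - y j) := Nat.one_le_iff_ne_zero.mpr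
            (Nat.mul_ne_zero hPpos.ne' (by omega))
          refine ⟨⟨by omega, by omega⟩, ⟨by omega, by omega⟩, ⟨by omega, by omega⟩⟩
        · exact Nat.Coprime.mul_right (hPcop i) (hcopy i)
        · exact Nat.Coprime.mul_right (hPcop j) (hcopy j)
        · rintro ⟨-, -, h3⟩
          simp only at h3
          rw [Nat.odd_mul] at h3
          exact (Nat.not_odd_iff_even.mpr (even_iff_two_dvd.mpr h2P)) h3.1
        · simp only
          rw [hcast]
          exact hsol
        · rw [Fintype.mem_piFinset]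
          intro l
          simp only [Function.update_apply]
          split_ifs
          · exact hr
          · exact hs
          · exact Fintype.mem_piFinset.mp hx l
        · rw [Fintype.mem_piFinset]
          intro l
          simp only [Function.update_apply]
          split_ifs
          · exact hq
          · exact Fintype.mem_piFinset.mp hy l
      have hinj : Set.InjOn φ (S (i, j) ×ˢ (Icc 1 X ×ˢ Icc 1 X ×ˢ Icc 1 Y) : Finset _) := by
        rintro ⟨⟨x, y⟩, s, r, q⟩ hw ⟨⟨x', y'⟩, s', r', q'⟩ hw' he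
        have hw := Finset.mem_coe.mp hw
        have hw' := Finset.mem_coe.mp hw'
        simp only [mem_product] at hw hw'
        obtain ⟨-, hij, hlt, -⟩ := mem_filter.mp hw.1
        obtain ⟨-, -, hlt', -⟩ := mem_filter.mp hw'.1
        simp only at hij hlt hlt'
        simp only [hφ, Prod.mk.injEq] at he
        obtain ⟨⟨e1, e2, e3⟩, e4, e5⟩ := he
        have f1 : x i = x' i := Nat.eq_of_mul_eq_mul_left hPpos (by omega)
        have f2 : x j = x' j := Nat.eq_of_mul_eq_mul_left hPpos (by omega)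
        have f3 : y i - y j = y' i - y' j := Nat.eq_of_mul_eq_mul_left hPpos e3
        have f4 : x = x' := by
          funext l
          by_cases hli : l = i
          · rw [hli]; exact f1
          · by_cases hlj : l = j
            · rw [hlj]; exact f2
            · have := congrFun e4 l
              simp only [Function.update_apply, hli, hlj, if_false] at this
              exact this
        have f5 : r = r' := by
          have := congrFun e4 j
          simp only [Function.update_apply, if_true] at this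
          exact this
        have f6 : s = s' := by
          have := congrFun e4 i
          simp only [Function.update_apply, hij, if_false, if_true] at this
          exact this
        have f7 : q = q' := by
          have := congrFun e5 i
          simp only [Function.update_apply, if_true] at this
          exact this
        have f8 : ∀ l, l ≠ i → y l = y' l := by
          intro l hl
          have := congrFun e5 l
          simp only [Function.update_apply, hl, if_false] at this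
          exact this
        have f9 : y = y' := by
          funext l
          by_cases hli : l = i
          · rw [hli]
            have := f8 j (Ne.symm hij)
            omega
          · exact f8 l hli
        rw [f4, f9, f5, f6, f7]
      have hle := card_le_card_of_injOn φ hmaps hinj
      simp only [card_product, Nat.card_Icc, add_tsub_cancel_right, hB, hC,
        Fintype.card_piFinset_const] at hle
      calc #(S (i, j)) * (X ^ 2 * Y) = #(S (i, j)) * (X * (X * Y)) := by ring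
        _ ≤ _ := hle
    have hsum : #G ≤ ∑ ij : Fin k × Fin k, #(S ij) :=
      le_trans (card_le_card hcover) card_biUnion_le
    have hsum' : #G * (X ^ 2 * Y) ≤ k ^ 2 * (#T * (X ^ k * Y ^ k)) := by
      calc #G * (X ^ 2 * Y) ≤ (∑ ij : Fin k × Fin k, #(S ij)) * (X ^ 2 * Y) :=
            Nat.mul_le_mul_right _ hsum
        _ = ∑ ij : Fin k × Fin k, #(S ij) * (X ^ 2 * Y) := by rw [sum_mul]
        _ ≤ ∑ _ij : Fin k × Fin k, #T * (X ^ k * Y ^ k) := sum_le_sum (fun ij _ => hone ij)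
        _ = k ^ 2 * (#T * (X ^ k * Y ^ k)) := by
            rw [sum_const, card_univ, Fintype.card_prod, Fintype.card_fin, smul_eq_mul, sq]
    have hsum'' : (#G : ℝ) * ((X : ℝ) ^ 2 * Y) ≤
        (k : ℝ) ^ 2 * ((#T : ℝ) * ((X : ℝ) ^ k * (Y : ℝ) ^ k)) := by
      exact_mod_cast hsum'
    have hXpos : (0 : ℝ) < X := by exact_mod_cast hX1
    have hYpos : (0 : ℝ) < Y := by exact_mod_cast hY1
    have hkpos : (0 : ℝ) < k := by exact_mod_cast (by omega : 0 < k)
    have hXk : (0 : ℝ) < (X : ℝ) ^ k * (Y : ℝ) ^ k := by positivity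
    rw [div_le_iff₀ (by positivity)]
    have h1 : ((X : ℝ) ^ k * (Y : ℝ) ^ k) / 4 * ((X : ℝ) ^ 2 * Y) ≤
        (k : ℝ) ^ 2 * ((#T : ℝ) * ((X : ℝ) ^ k * (Y : ℝ) ^ k)) :=
      le_trans (mul_le_mul_of_nonneg_right hGcard (by positivity)) hsum''
    have h2 : ((X : ℝ) ^ k * (Y : ℝ) ^ k) * ((X : ℝ) ^ 2 * Y) ≤
        ((X : ℝ) ^ k * (Y : ℝ) ^ k) * ((#T : ℝ) * (4 * (k : ℝ) ^ 2)) := by
      nlinarith [h1]
    exact le_of_mul_le_mul_left h2 hXk
  -- choose `X = ⌊(M-1)/P⌋`, `Y = ⌊(N-1)/P⌋`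
  have hPR : (0 : ℝ) < P := by exact_mod_cast hPpos
  have hkR : (0 : ℝ) < k := by exact_mod_cast (by omega : 0 < k)
  have choice : ∀ N : ℕ, 4 * P * (X₀ + 1) ≤ N → X₀ + 1 ≤ (N - 1) / P ∧ 1 + P * ((N - 1) / P) ≤ N ∧
      (N : ℝ) / (4 * P) ≤ (((N - 1) / P : ℕ) : ℝ) := by
    intro N hN4
    set X := (N - 1) / P with hXdef
    have hP1 : 1 ≤ P := hPpos
    have hPX : P * (X₀ + 1) ≤ N - 1 := by
      have : P * (X₀ + 1) ≥ 1 := Nat.one_le_iff_ne_zero.mpr (by positivity)
      have h4 : 4 * P * (X₀ + 1) = 4 * (P * (X₀ + 1)) := by ring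
      omega
    have hXge : X₀ + 1 ≤ X := by
      rw [hXdef, Nat.le_div_iff_mul_le hPpos]
      rw [mul_comm]; exact hPX
    have hXle : 1 + P * X ≤ N := by
      have : P * X ≤ N - 1 := Nat.mul_div_le _ _
      have h3 : 1 ≤ N := by
        have : P * (X₀ + 1) ≥ 1 := Nat.one_le_iff_ne_zero.mpr (by positivity)
        have h4 : 4 * P * (X₀ + 1) = 4 * (P * (X₀ + 1)) := by ring
        omega
      omega
    refine ⟨hXge, hXle, ?_⟩
    have h1 : N - 1 < P * (X + 1) := by
      rw [hXdef]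
      exact Nat.lt_mul_div_succ _ hPpos
    have h2 : N ≤ P * (X + 1) := by omega
    have h3 : N ≤ P * (2 * X) := le_trans h2 (Nat.mul_le_mul_left _ (by omega))
    have h4 : (N : ℝ) ≤ P * (2 * X) := by exact_mod_cast h3
    rw [div_le_iff₀ (by positivity)]
    have : (0 : ℝ) ≤ P * X := by positivity
    nlinarith
  refine ⟨1 / (256 * (k : ℝ) ^ 2 * (P : ℝ) ^ 3), by positivity, 4 * P * (X₀ + 1),
    fun M N hM hN => ?_⟩
  obtain ⟨hX1, hX2, hX3⟩ := choice M hM
  obtain ⟨hY1, hY2, hY3⟩ := choice N hN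
  refine le_trans ?_ (main ((M - 1) / P) ((N - 1) / P) (by omega) (by omega) (by omega) (by omega)
    M N hX2 (by omega))
  have h5 : ((M : ℝ) / (4 * P)) ^ 2 ≤ ((((M - 1) / P : ℕ) : ℝ)) ^ 2 :=
    pow_le_pow_left₀ (by positivity) hX3 2
  have h6 : ((M : ℝ) / (4 * P)) ^ 2 * ((N : ℝ) / (4 * P)) ≤
      ((((M - 1) / P : ℕ) : ℝ)) ^ 2 * (((N - 1) / P : ℕ) : ℝ) :=
    mul_le_mul h5 hY3 (by positivity) (by positivity)
  calc 1 / (256 * (k : ℝ) ^ 2 * (P : ℝ) ^ 3) * ((M : ℝ) ^ 2 * N)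
      = (((M : ℝ) / (4 * P)) ^ 2 * ((N : ℝ) / (4 * P))) / (4 * (k : ℝ) ^ 2) := by
        field_simp
        ring
    _ ≤ _ := by
        apply div_le_div_of_nonneg_right h6 (by positivity)

open Classical in
/-- A positive proportion of all triples is solvable, in boxes of every shape. -/
theorem triples_box : ∃ δ : ℝ, 0 < δ ∧ ∃ N₀ : ℕ, ∀ M N : ℕ, N₀ ≤ M → N₀ ≤ N →
      δ * ((M : ℝ) ^ 2 * N) ≤ #{t ∈ Icc 1 M ×ˢ Icc 1 M ×ˢ Icc 1 N | Nat.Coprime t.1 t.2.1 ∧
        Nat.Coprime t.1 t.2.2 ∧ Nat.Coprime t.2.1 t.2.2 ∧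
        ¬ (Odd t.1 ∧ Odd t.2.1 ∧ Odd t.2.2) ∧ InfSol t.1 t.2.1 t.2.2} :=
  triples_box_of two_primes_general coprime_tuples_box

end Pool.Agent.helper39.MT
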