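import Pool.Agent.helper39.MT.Defs

/-!
# R3: bounded powers of every rational (corollary of Maynard-Tao)
-/

namespace Pool.Agent.helper39.MT

open Finset Real

/-- Exchange the two primes. -/
lemma InfSol.swap71 {a b : ℕ} {c : ℤ} (h : InfSol a b c) : InfSol b a (-c) := by
  unfold InfSol at h ⊢
  have hinj : Function.Injective (fun pq : ℕ × ℕ => (pq.2, pq.1)) := by
    rintro ⟨x, y⟩ ⟨z, w⟩ hh
    simp only [Prod.mk.injEq] at hh
    exact Prod.ext hh.2 hh.1
  refine (h.image hinj.injOn).mono ?_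
  rintro _ ⟨⟨p, q⟩, ⟨hp, hq, he⟩, rfl⟩
  refine ⟨hq, hp, ?_⟩
  simp only at he ⊢
  linarith

/-- Divide the equation by a common factor. -/
lemma InfSol.div71 {g a b : ℕ} {c : ℤ} (hg : 0 < g) (h : InfSol (g * a) (g * b) ((g : ℤ) * c)) :
    InfSol a b c := by
  unfold InfSol at h ⊢
  refine h.mono ?_
  rintro ⟨p, q⟩ ⟨hp, hq, he⟩
  refine ⟨hp, hq, ?_⟩
  have hg' : (g : ℤ) ≠ 0 := by exact_mod_cast hg.ne'
  apply mul_left_cancel₀ hg'
  simp only at he ⊢
  push_cast at he
  linarith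

/-- R3 (hand-in): bounded powers of every rational. -/
theorem power_ratios_of
    (two_primes_general : ∃ k : ℕ, 2 ≤ k ∧ ∀ (u : Fin k → ℕ) (e : Fin k → ℤ), (∀ i, 0 < u i) →
      Function.Injective e →
      (∀ p : ℕ, p.Prime → ∃ n : ℤ, ∀ i, ((p ^ (u i).factorization p : ℕ) : ℤ) ∣ n + e i ∧
        ¬ ((p ^ ((u i).factorization p + 1) : ℕ) : ℤ) ∣ n + e i) →
      ∃ i j, i ≠ j ∧ InfSol (u i) (u j) (e i - e j)) :
    ∃ T : ℕ, ∀ a b : ℕ, 0 < a → 0 < b → a ≠ b → Nat.Coprime a b → ∀ c : ℤ,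
    c ≠ 0 → IsCoprime (a : ℤ) c → IsCoprime (b : ℤ) c →
    ∃ t : ℕ, 1 ≤ t ∧ t ≤ T ∧ InfSol (b ^ t) (a ^ t) (c * ((b : ℤ) ^ t - (a : ℤ) ^ t)) := by
  obtain ⟨k, hk, H⟩ := two_primes_general
  refine ⟨k, fun a b ha hb hab hcop c hc hac hbc => ?_⟩
  set u : Fin k → ℕ := fun i => a ^ (k - 1 - (i : ℕ)) * b ^ (i : ℕ) with hu
  have hupos : ∀ i, 0 < u i := fun i => by positivity
  -- for `i < j`
  have key : ∀ i j : Fin k, i < j → u j = (a ^ (k - 1 - (j : ℕ)) * b ^ (i : ℕ)) * b ^ ((j : ℕ) - i) ∧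
      u i = (a ^ (k - 1 - (j : ℕ)) * b ^ (i : ℕ)) * a ^ ((j : ℕ) - i) := by
    intro i j hij
    have hij' : (i : ℕ) < j := hij
    have hj := j.isLt
    constructor
    · simp only [hu]
      rw [mul_assoc, ← pow_add]
      congr 2
      omega
    · simp only [hu]
      have : k - 1 - (i : ℕ) = (k - 1 - (j : ℕ)) + ((j : ℕ) - i) := by omega
      rw [this, pow_add]
      ring
  have hune : ∀ i j : Fin k, i < j → u i ≠ u j := by
    intro i j hij h
    obtain ⟨h1, h2⟩ := key i j hij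
    rw [h1, h2] at h
    have hpos : 0 < a ^ (k - 1 - (j : ℕ)) * b ^ (i : ℕ) := by positivity
    have h3 := Nat.eq_of_mul_eq_mul_left hpos h
    have hij' : (i : ℕ) < j := hij
    have h4 : (j : ℕ) - i ≠ 0 := by omega
    exact hab (Nat.pow_left_injective h4 h3)
  have huinj : Function.Injective u := by
    intro i j h
    rcases lt_trichotomy i j with hij | hij | hij
    · exact absurd h (hune i j hij)
    · exact hij
    · exact absurd h.symm (hune j i hij)
  have heinj : Function.Injective (fun i => c * (u i : ℤ)) := by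
    intro i j h
    have h1 : (u i : ℤ) = u j := mul_left_cancel₀ hc h
    exact huinj (by exact_mod_cast h1)
  have hloc : ∀ p : ℕ, p.Prime → ∃ n : ℤ, ∀ i,
      ((p ^ (u i).factorization p : ℕ) : ℤ) ∣ n + c * (u i : ℤ) ∧
        ¬ ((p ^ ((u i).factorization p + 1) : ℕ) : ℤ) ∣ n + c * (u i : ℤ) := by
    intro p hp
    have hpZ : Prime (p : ℤ) := Nat.prime_iff_prime_int.mp hp
    by_cases hpc : (p : ℤ) ∣ c
    · refine ⟨1, fun i => ?_⟩
      have hpa : ¬ p ∣ a := by
        intro h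
        exact hpZ.not_isUnit (hac.isUnit_of_dvd' (Int.natCast_dvd_natCast.mpr h) hpc)
      have hpb : ¬ p ∣ b := by
        intro h
        exact hpZ.not_isUnit (hbc.isUnit_of_dvd' (Int.natCast_dvd_natCast.mpr h) hpc)
      have hpu : ¬ p ∣ u i := by
        intro h
        rcases (hp.dvd_mul).mp h with h | h
        · exact hpa (hp.dvd_of_dvd_pow h)
        · exact hpb (hp.dvd_of_dvd_pow h)
      rw [Nat.factorization_eq_zero_of_not_dvd hpu]
      refine ⟨by simp, ?_⟩
      intro h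
      simp only [zero_add, pow_one] at h
      have h1 : (p : ℤ) ∣ 1 := (Int.dvd_add_left (Dvd.dvd.mul_right hpc _)).mp h
      exact hpZ.not_isUnit (isUnit_of_dvd_one h1)
    · refine ⟨0, fun i => ?_⟩
      rw [zero_add]
      constructor
      · exact Dvd.dvd.mul_left (Int.natCast_dvd_natCast.mpr (Nat.ordProj_dvd (u i) p)) c
      · intro h
        have hcopc : IsCoprime ((p ^ ((u i).factorization p + 1) : ℕ) : ℤ) c := by
          push_cast
          exact IsCoprime.pow_left ((Prime.coprime_iff_not_dvd hpZ).mpr hpc)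
        have h1 := hcopc.dvd_of_dvd_mul_left h
        have h2 : p ^ ((u i).factorization p + 1) ∣ u i := Int.natCast_dvd_natCast.mp h1
        exact Nat.pow_succ_factorization_not_dvd (hupos i).ne' hp h2
  obtain ⟨i, j, hij, hsol⟩ := H u (fun i => c * (u i : ℤ)) hupos heinj hloc
  -- reduce to `i < j`
  have main : ∀ i j : Fin k, i < j → InfSol (u j) (u i) (c * (u j : ℤ) - c * (u i : ℤ)) →
      ∃ t : ℕ, 1 ≤ t ∧ t ≤ k ∧ InfSol (b ^ t) (a ^ t) (c * ((b : ℤ) ^ t - (a : ℤ) ^ t)) := by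
    intro i j hij hs
    have hij' : (i : ℕ) < j := hij
    have hj := j.isLt
    obtain ⟨h1, h2⟩ := key i j hij
    refine ⟨(j : ℕ) - i, by omega, by omega, ?_⟩
    have hpos : 0 < a ^ (k - 1 - (j : ℕ)) * b ^ (i : ℕ) := by positivity
    apply InfSol.div71 hpos
    rw [← h1, ← h2]
    have h1' : (u j : ℤ) = ((a ^ (k - 1 - (j : ℕ)) * b ^ (i : ℕ) : ℕ) : ℤ) * (b : ℤ) ^ ((j : ℕ) - i) := by
      rw [h1]; push_cast; ring
    have h2' : (u i : ℤ) = ((a ^ (k - 1 - (j : ℕ)) * b ^ (i : ℕ) : ℕ) : ℤ) * (a : ℤ) ^ ((j : ℕ) - i) := by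
      rw [h2]; push_cast; ring
    have h3 : ((a ^ (k - 1 - (j : ℕ)) * b ^ (i : ℕ) : ℕ) : ℤ) *
        (c * ((b : ℤ) ^ ((j : ℕ) - i) - (a : ℤ) ^ ((j : ℕ) - i))) =
        c * (u j : ℤ) - c * (u i : ℤ) := by
      rw [h1', h2']; ring
    rw [h3]
    exact hs
  rcases lt_or_gt_of_ne hij with h | h
  · apply main i j h
    have := hsol.swap71
    simp only [neg_sub] at this
    exact this
  · exact main j i h hsol

/-- R3 (hand-in): among any `k` distinct positive rationals some quotient is `(p - c)/(q - c)` for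
infinitely many pairs of primes. -/
theorem ratio_sets_of
    (two_primes_general : ∃ k : ℕ, 2 ≤ k ∧ ∀ (u : Fin k → ℕ) (e : Fin k → ℤ), (∀ i, 0 < u i) →
      Function.Injective e →
      (∀ p : ℕ, p.Prime → ∃ n : ℤ, ∀ i, ((p ^ (u i).factorization p : ℕ) : ℤ) ∣ n + e i ∧
        ¬ ((p ^ ((u i).factorization p + 1) : ℕ) : ℤ) ∣ n + e i) →
      ∃ i j, i ≠ j ∧ InfSol (u i) (u j) (e i - e j)) :
    ∃ k : ℕ, ∀ c : ℤ, c ≠ 0 → ∀ r : Fin k → ℚ, (∀ i, 0 < r i) →
    Function.Injective r →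
    (∀ i, ∀ p : ℕ, p.Prime → (p : ℤ) ∣ c → padicValRat p (r i) = 0) →
    ∃ i j, i ≠ j ∧ {pq : ℕ × ℕ | pq.1.Prime ∧ pq.2.Prime ∧
      ((pq.1 : ℚ) - c) * r j = ((pq.2 : ℚ) - c) * r i}.Infinite := by
  obtain ⟨k, hk, H⟩ := two_primes_general
  refine ⟨k, fun c hc r hr hinj hval => ?_⟩
  set a : Fin k → ℕ := fun i => (r i).num.natAbs with ha
  have hapos : ∀ i, 0 < a i := fun i => Int.natAbs_pos.mpr (Rat.num_pos.mpr (hr i)).ne'
  have hanum : ∀ i, ((a i : ℕ) : ℤ) = (r i).num := fun i =>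
    Int.natAbs_of_nonneg (Rat.num_pos.mpr (hr i)).le
  set K : ℕ := ∏ i, a i with hK
  have hKpos : 0 < K := prod_pos (fun i _ => hapos i)
  have hdvd : ∀ i, a i ∣ K := fun i => dvd_prod_of_mem a (mem_univ i)
  set u : Fin k → ℕ := fun i => K / a i * (r i).den with hu
  have hupos : ∀ i, 0 < u i := fun i =>
    Nat.mul_pos (Nat.div_pos (Nat.le_of_dvd hKpos (hdvd i)) (hapos i)) (r i).den_pos
  have hur : ∀ i, (u i : ℚ) * r i = K := by
    intro i
    have h1 : (r i : ℚ) = (a i : ℚ) / ((r i).den : ℚ) := by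
      conv_lhs => rw [← Rat.num_div_den (r i)]
      rw [← hanum i]
      simp
    have h2 : ((K / a i : ℕ) : ℚ) * (a i : ℚ) = K := by
      rw [← Nat.cast_mul, Nat.div_mul_cancel (hdvd i)]
    have h3 : ((r i).den : ℚ) ≠ 0 := by exact_mod_cast (r i).den_pos.ne'
    have h4 : ((r i).den : ℚ) * r i = a i := by
      have h5 : ((r i).den : ℚ) * ((a i : ℚ) / ((r i).den : ℚ)) = a i := by field_simp
      rw [← h1] at h5
      exact h5
    simp only [hu]
    push_cast
    rw [mul_assoc, h4, h2]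
  have huinj : Function.Injective u := by
    intro i j h
    apply hinj
    have h1 := hur i
    have h2 := hur j
    rw [h] at h1
    have h3 : (u j : ℚ) ≠ 0 := by exact_mod_cast (hupos j).ne'
    exact mul_left_cancel₀ h3 (h1.trans h2.symm)
  have heinj : Function.Injective (fun i => c * (u i : ℤ)) := by
    intro i j h
    have h1 : (u i : ℤ) = u j := mul_left_cancel₀ hc h
    exact huinj (by exact_mod_cast h1)
  have hpa : ∀ p : ℕ, p.Prime → (p : ℤ) ∣ c → ∀ i, ¬ p ∣ a i ∧ ¬ p ∣ (r i).den := by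
    intro p hp hpc i
    have : Fact p.Prime := ⟨hp⟩
    have h1 := hval i p hp hpc
    rw [padicValRat_def, padicValInt] at h1
    have hcop : Nat.Coprime (a i) (r i).den := (r i).reduced
    have h2 : padicValNat p (a i) = padicValNat p (r i).den := by
      have : ((padicValNat p (a i) : ℕ) : ℤ) = (padicValNat p (r i).den : ℕ) := by
        simp only [ha]; linarith
      exact_mod_cast this
    by_contra hcon
    have hor : p ∣ a i ∨ p ∣ (r i).den := by tauto
    have hboth : p ∣ a i ∧ p ∣ (r i).den := by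
      rcases hor with h | h
      · have h3 : padicValNat p (a i) ≠ 0 := by
          have := one_le_padicValNat_of_dvd (hapos i).ne' h
          omega
        exact ⟨h, dvd_of_one_le_padicValNat (by omega)⟩
      · have h3 : padicValNat p (r i).den ≠ 0 := by
          have := one_le_padicValNat_of_dvd (r i).den_pos.ne' h
          omega
        exact ⟨dvd_of_one_le_padicValNat (by omega), h⟩
    have := Nat.dvd_gcd hboth.1 hboth.2
    rw [Nat.Coprime.gcd_eq_one hcop] at this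
    exact hp.one_lt.ne' (Nat.dvd_one.mp this)
  have hloc : ∀ p : ℕ, p.Prime → ∃ n : ℤ, ∀ i,
      ((p ^ (u i).factorization p : ℕ) : ℤ) ∣ n + c * (u i : ℤ) ∧
        ¬ ((p ^ ((u i).factorization p + 1) : ℕ) : ℤ) ∣ n + c * (u i : ℤ) := by
    intro p hp
    have hpZ : Prime (p : ℤ) := Nat.prime_iff_prime_int.mp hp
    by_cases hpc : (p : ℤ) ∣ c
    · refine ⟨1, fun i => ?_⟩
      have hpK : ¬ p ∣ K := by
        intro h
        obtain ⟨j, -, hj⟩ := (Prime.dvd_finsetProd_iff hp.prime a).mp h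
        exact (hpa p hp hpc j).1 hj
      have hpu : ¬ p ∣ u i := by
        intro h
        rcases (hp.dvd_mul).mp h with h | h
        · exact hpK (h.trans (Nat.div_dvd_of_dvd (hdvd i)))
        · exact (hpa p hp hpc i).2 h
      rw [Nat.factorization_eq_zero_of_not_dvd hpu]
      refine ⟨by simp, ?_⟩
      intro h
      simp only [zero_add, pow_one] at h
      have h1 : (p : ℤ) ∣ 1 := (Int.dvd_add_left (Dvd.dvd.mul_right hpc _)).mp h
      exact hpZ.not_isUnit (isUnit_of_dvd_one h1)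
    · refine ⟨0, fun i => ?_⟩
      rw [zero_add]
      constructor
      · exact Dvd.dvd.mul_left (Int.natCast_dvd_natCast.mpr (Nat.ordProj_dvd (u i) p)) c
      · intro h
        have hcopc : IsCoprime ((p ^ ((u i).factorization p + 1) : ℕ) : ℤ) c := by
          push_cast
          exact IsCoprime.pow_left ((Prime.coprime_iff_not_dvd hpZ).mpr hpc)
        have h1 := hcopc.dvd_of_dvd_mul_left h
        have h2 : p ^ ((u i).factorization p + 1) ∣ u i := Int.natCast_dvd_natCast.mp h1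
        exact Nat.pow_succ_factorization_not_dvd (hupos i).ne' hp h2
  obtain ⟨i, j, hij, hsol⟩ := H u (fun i => c * (u i : ℤ)) hupos heinj hloc
  refine ⟨i, j, hij, hsol.mono ?_⟩
  rintro ⟨p, q⟩ ⟨hp, hq, he⟩
  refine ⟨hp, hq, ?_⟩
  simp only at he ⊢
  have he' : (u i : ℚ) * p - u j * q = c * u i - c * u j := by exact_mod_cast he
  have hK' : (K : ℚ) ≠ 0 := by exact_mod_cast hKpos.ne'
  apply mul_left_cancel₀ hK'
  have h1 := hur i
  have h2 := hur j
  calc (K : ℚ) * (((p : ℚ) - c) * r j) = (u i * r i) * (((p : ℚ) - c) * r j) := by rw [h1]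
    _ = ((u i : ℚ) * p - c * u i) * (r i * r j) := by ring
    _ = ((u j : ℚ) * q - c * u j) * (r i * r j) := by rw [show (u i : ℚ) * p - c * u i =
        u j * q - c * u j by linarith]
    _ = (u j * r j) * (((q : ℚ) - c) * r i) := by ring
    _ = K * (((q : ℚ) - c) * r i) := by rw [h2]

end Pool.Agent.helper39.MT
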